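import Pool.Agent.H43.TC.Targets2

set_option autoImplicit false

namespace Pool.Agent.H80.TC

open Finset Pool.Agent.H43.TC

lemma latE (r : ℕ) (x y s : ℤ) (h : x + (2 * r + 1) * y = (2 * r ^ 2 + 2 * r + 1) * s)
    (hb : |x| + |y| ≤ 2 * r) : x = 0 ∧ y = 0 := by
  have h1 : x + y ≤ 2 * r := by
    have := le_abs_self x; have := le_abs_self y; linarith
  have h2 : -(x + y) ≤ 2 * r := by
    have := neg_abs_le x; have := neg_abs_le y; linarith
  have h3 : y - x ≤ 2 * r := by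
    have := neg_abs_le x; have := le_abs_self y; linarith
  have h4 : -(y - x) ≤ 2 * r := by
    have := le_abs_self x; have := neg_abs_le y; linarith
  obtain ⟨α, hα⟩ : ∃ α : ℤ, α = (r + 1) * s - y := ⟨_, rfl⟩
  obtain ⟨β, hβ⟩ : ∃ β : ℤ, β = y - r * s := ⟨_, rfl⟩
  have hx : x = (r + 1) * α - r * β := by
    subst hα hβ; linear_combination h
  have hy : y = r * α + (r + 1) * β := by
    subst hα hβ; ring
  have e1 : x + y = (2 * r + 1) * α + β := by rw [hx, hy]; ring
  have e2 : y - x = -α + (2 * r + 1) * β := by rw [hx, hy]; ring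
  rw [e1] at h1 h2
  rw [e2] at h3 h4
  have hr : (0 : ℤ) ≤ r := by positivity
  have q1 : ((2 * r + 1) * α + β) ^ 2 ≤ (2 * r) ^ 2 := by
    apply sq_le_sq'
    · linarith
    · linarith
  have q2 : (-α + (2 * r + 1) * β) ^ 2 ≤ (2 * r) ^ 2 := by
    apply sq_le_sq'
    · linarith
    · linarith
  have q3 : (4 * (r : ℤ) ^ 2 + 4 * r + 2) * (α ^ 2 + β ^ 2) ≤ 8 * (r : ℤ) ^ 2 := by
    nlinarith
  have q4 : α ^ 2 + β ^ 2 < 2 := by
    by_contra hcon
    push Not at hcon
    nlinarith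
  have a1 : α ≤ 1 := by nlinarith [sq_nonneg β]
  have a2 : -1 ≤ α := by nlinarith [sq_nonneg β]
  have b1 : β ≤ 1 := by nlinarith [sq_nonneg α]
  have b2 : -1 ≤ β := by nlinarith [sq_nonneg α]
  have hab : α = 0 ∧ β = 0 := by
    interval_cases α <;> interval_cases β <;> first | exact ⟨rfl, rfl⟩ | (exfalso; linarith)
  rw [hx, hy, hab.1, hab.2]
  simp

lemma latO (r : ℕ) (x y s : ℤ) (h : x + (2 * r + 1) * y = (2 * (r + 1) ^ 2) * s)
    (hb : |x| + |y| ≤ 2 * r + 1) : x = 0 ∧ y = 0 := by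
  have h1 : x + y ≤ 2 * r + 1 := by
    have := le_abs_self x; have := le_abs_self y; linarith
  have h2 : -(x + y) ≤ 2 * r + 1 := by
    have := neg_abs_le x; have := neg_abs_le y; linarith
  have h3 : y - x ≤ 2 * r + 1 := by
    have := neg_abs_le x; have := le_abs_self y; linarith
  have h4 : -(y - x) ≤ 2 * r + 1 := by
    have := le_abs_self x; have := neg_abs_le y; linarith
  have hr : (0 : ℤ) ≤ r := by positivity
  obtain ⟨α, hα⟩ : ∃ α : ℤ, α = y - (r + 1) * s := ⟨_, rfl⟩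
  have hy : y = α + (r + 1) * s := by rw [hα]; ring
  have hx : x = (r + 1) * s - (2 * r + 1) * α := by
    rw [hα]; linear_combination h
  have e2 : y - x = (2 * r + 2) * α := by rw [hx, hy]; ring
  rw [e2] at h3 h4
  have hα0 : α = 0 := by
    have a1 : α < 1 := by
      by_contra hc; push Not at hc; nlinarith
    have a2 : -1 < α := by
      by_contra hc; push Not at hc; nlinarith
    omega
  have e1 : x + y = (2 * r + 2) * s := by rw [hx, hy, hα0]; ring
  rw [e1] at h1 h2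
  have hs0 : s = 0 := by
    have a1 : s < 1 := by
      by_contra hc; push Not at hc; nlinarith
    have a2 : -1 < s := by
      by_contra hc; push Not at hc; nlinarith
    omega
  rw [hx, hy, hα0, hs0]
  simp

lemma cntV (n p : ℕ) (hp : p < 2) :
    (∑ v ∈ Finset.range n, if p = v % 2 then 1 else 0) = (n + 1 - p) / 2 := by
  induction n with
  | zero => simp; omega
  | succ n ih =>
    rw [Finset.sum_range_succ, ih]
    split_ifs with h <;> omega

lemma cntU (n m : ℕ) :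
    (∑ u ∈ Finset.range n, (m + 1 - u % 2) / 2) = (n + 1) / 2 * ((m + 1) / 2) + n / 2 * (m / 2) := by
  induction n with
  | zero => simp
  | succ n ih =>
    rw [Finset.sum_range_succ, ih]
    rcases Nat.even_or_odd' n with ⟨q, rfl | rfl⟩
    · have e1 : (2 * q + 1) / 2 = q := by omega
      have e2 : (2 * q) / 2 = q := by omega
      have e3 : (2 * q + 1 + 1) / 2 = q + 1 := by omega
      have e4 : (2 * q) % 2 = 0 := by omega
      rw [e1, e2, e3, e4]
      simp only [Nat.sub_zero]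
      ring
    · have e1 : (2 * q + 1) / 2 = q := by omega
      have e2 : (2 * q + 1 + 1 + 1) / 2 = q + 1 := by omega
      have e3 : (2 * q + 1 + 1) / 2 = q + 1 := by omega
      have e4 : (2 * q + 1) % 2 = 1 := by omega
      rw [e1, e2, e3, e4]
      simp only [Nat.add_sub_cancel]
      ring

lemma cnt (n : ℕ) :
    (((Finset.range n) ×ˢ (Finset.range n)).filter (fun p => p.1 % 2 = p.2 % 2)).card =
      (n ^ 2 + 1) / 2 := by
  rw [Finset.card_filter, Finset.sum_product]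
  have h1 : ∀ u ∈ Finset.range n,
      (∑ v ∈ Finset.range n, if u % 2 = v % 2 then 1 else 0) = (n + 1 - u % 2) / 2 := by
    intro u _
    exact cntV n (u % 2) (Nat.mod_lt _ (by norm_num))
  rw [Finset.sum_congr rfl h1, cntU]
  rcases Nat.even_or_odd' n with ⟨q, rfl | rfl⟩
  · have e1 : (2 * q + 1) / 2 = q := by omega
    have e2 : (2 * q) / 2 = q := by omega
    rw [e1, e2]
    have e3 : (2 * q) ^ 2 + 1 = 2 * (q * q + q * q) + 1 := by ring
    rw [e3]
    omega
  · have e1 : (2 * q + 1) / 2 = q := by omega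
    have e3 : (2 * q + 1 + 1) / 2 = q + 1 := by omega
    rw [e1, e3]
    have e4 : (2 * q + 1) ^ 2 + 1 = 2 * ((q + 1) * (q + 1) + q * q) := by ring
    rw [e4]
    omega

/-- the point with coordinates `(u, v)` -/
def pt (r : ℤ) (p : ℕ × ℕ) : Fin 2 → ℤ := ![((p.1 : ℤ) + p.2) / 2 - r, ((p.1 : ℤ) - p.2) / 2]

lemma partA (t : ℕ) : ∃ A : Finset (Fin 2 → ℤ), (0 : Fin 2 → ℤ) ∈ A ∧
    (∀ a ∈ A, ∀ b ∈ A, nrm (a - b) ≤ t) ∧ A.card = ((t + 1) ^ 2 + 1) / 2 := by
  classical
  let P := ((Finset.range (t + 1)) ×ˢ (Finset.range (t + 1))).filter (fun p => p.1 % 2 = p.2 % 2)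
  let r : ℤ := ((t / 2 : ℕ) : ℤ)
  refine ⟨P.image (pt r), ?_, ?_, ?_⟩
  · rw [Finset.mem_image]
    refine ⟨(t / 2, t / 2), ?_, ?_⟩
    · simp only [P, Finset.mem_filter, Finset.mem_product, Finset.mem_range]
      have : t / 2 < t + 1 := by omega
      exact ⟨⟨this, this⟩, trivial⟩
    · funext i
      fin_cases i
      · show (((t / 2 : ℕ) : ℤ) + ((t / 2 : ℕ) : ℤ)) / 2 - ((t / 2 : ℕ) : ℤ) = 0
        omega
      · show (((t / 2 : ℕ) : ℤ) - ((t / 2 : ℕ) : ℤ)) / 2 = 0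
        omega
  · intro a ha b hb
    rw [Finset.mem_image] at ha hb
    obtain ⟨⟨u, v⟩, hp, rfl⟩ := ha
    obtain ⟨⟨u', v'⟩, hp', rfl⟩ := hb
    simp only [P, Finset.mem_filter, Finset.mem_product, Finset.mem_range] at hp hp'
    simp only [nrm, Fin.sum_univ_two, pt, Pi.sub_apply, Matrix.cons_val_zero, Matrix.cons_val_one]
    rcases abs_cases (((u : ℤ) + v) / 2 - r - (((u' : ℤ) + v') / 2 - r)) with ⟨h1, _⟩ | ⟨h1, _⟩ <;>
    rcases abs_cases (((u : ℤ) - v) / 2 - (((u' : ℤ) - v') / 2)) with ⟨h2, _⟩ | ⟨h2, _⟩ <;>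
    rw [h1, h2] <;> omega
  · rw [Finset.card_image_of_injOn, cnt]
    rintro ⟨u, v⟩ hp ⟨u', v'⟩ hp' h
    simp only [P, Finset.mem_coe, Finset.mem_filter, Finset.mem_product, Finset.mem_range] at hp hp'
    have h0 := congrFun h 0
    have h1 := congrFun h 1
    simp only [pt, Matrix.cons_val_zero, Matrix.cons_val_one] at h0 h1
    have : u = u' ∧ v = v' := by omega
    simp [this.1, this.2]

lemma surj {N : ℕ} (c : ZMod N) :
    Function.Surjective (Pool.Agent.H43.TC.lin (![1, c] : Fin 2 → ZMod N)) := by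
  intro x
  refine ⟨![x, 0], ?_⟩
  simp [Pool.Agent.H43.TC.lin]

theorem pf2 : T_PF2 := by
  intro t
  refine ⟨?_, partA t⟩
  refine ⟨![1, (t / 2 * 2 + 1 : ℕ)], surj _, ?_⟩
  intro z hz hn hS
  apply hz
  simp only [nrm, Fin.sum_univ_two] at hn
  simp only [Fin.sum_univ_two, Matrix.cons_val_zero, Matrix.cons_val_one, one_mul] at hS
  have hS' : (((z 0 + ((t / 2 * 2 + 1 : ℕ) : ℤ) * z 1 : ℤ)) : ZMod (((t + 1) ^ 2 + 1) / 2)) = 0 := by
    rw [Int.cast_add, Int.cast_mul, Int.cast_natCast]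
    exact hS
  rw [ZMod.intCast_zmod_eq_zero_iff_dvd] at hS'
  obtain ⟨s, hs⟩ := hS'
  have key : z 0 = 0 ∧ z 1 = 0 := by
    rcases Nat.even_or_odd' t with ⟨r, rfl | rfl⟩
    · have e1 : 2 * r / 2 * 2 + 1 = 2 * r + 1 := by omega
      have e2 : ((2 * r + 1) ^ 2 + 1) / 2 = 2 * r ^ 2 + 2 * r + 1 := by
        have : (2 * r + 1) ^ 2 + 1 = 2 * (2 * r ^ 2 + 2 * r + 1) := by ring
        rw [this]; omega
      rw [e1, e2] at hs
      push_cast at hs hn
      exact latE r (z 0) (z 1) s hs hn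
    · have e1 : (2 * r + 1) / 2 * 2 + 1 = 2 * r + 1 := by omega
      have e2 : ((2 * r + 1 + 1) ^ 2 + 1) / 2 = 2 * (r + 1) ^ 2 := by
        have : (2 * r + 1 + 1) ^ 2 + 1 = 2 * (2 * (r + 1) ^ 2) + 1 := by ring
        rw [this]; omega
      rw [e1, e2] at hs
      push_cast at hs hn
      exact latO r (z 0) (z 1) s hs hn
  funext i
  fin_cases i
  · exact key.1
  · exact key.2

end Pool.Agent.H80.TC
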